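import Mathlib

/-!
# Guessable does not imply strongly guessable

There are a (noncommutative, idempotent) semiring and a function computed by a one-state weighted
automaton over a one-letter alphabet which is guessable but not strongly guessable; dually for
co-guessable functions.
-/

namespace Pool.Agent.Results.MP_2c9be0_lc.GuessableNotStrongly

section defs

variable {S : Type} [Semiring S] {A : Type}

/-- `f` is computed by a finite weighted automaton over `S`: an initial row vector `α`, a square
matrix `μ a` for every letter and a final column vector `η`, with `f w = α μ(w) η`. -/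
def Computed (f : List A → S) : Prop :=
  ∃ (n : ℕ) (α : Fin n → S) (μ : A → Matrix (Fin n) (Fin n) S) (η : Fin n → S),
    ∀ w : List A, f w = ∑ i, α i * ((w.map μ).prod.mulVec η) i

/-- The set `Λ_{Q,T}`; its elements are pairs consisting of the coefficients `λ_q` and
`λ_{q,a,p}`. -/
def Lam (f : List A → S) (Q : Finset (List A)) (T : Set (List A)) :
    Set ((Q → S) × (Q → A → Q → S)) :=
  {l | (∀ w ∈ T, f w = ∑ q : Q, l.1 q * f ((q : List A) ++ w)) ∧
    ∀ (q : Q) (a : A), ∀ w ∈ T, f (((q : List A) ++ [a]) ++ w) =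
      ∑ p : Q, l.2 q a p * f ((p : List A) ++ w)}

/-- `f` is guessable. -/
def Guessable (f : List A → S) : Prop :=
  ∃ (Q : Finset (List A)) (T : Set (List A)), Q.Nonempty ∧ T.Finite ∧
    Lam f Q T = Lam f Q Set.univ ∧ (Lam f Q Set.univ).Nonempty

/-- `f` is strongly guessable. -/
def StronglyGuessable (f : List A → S) : Prop :=
  Guessable f ∧ ∀ Q : Finset (List A), Q.Nonempty → ∃ T : Set (List A), T.Finite ∧
    Lam f Q T = Lam f Q Set.univ

/-- The set `Γ_{Q,T}` (columns, scalars on the right); its elements are pairs consisting of the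
coefficients `γ_t` and `γ_{s,a,t}`. -/
def Gam (f : List A → S) (Q : Set (List A)) (T : Finset (List A)) :
    Set ((T → S) × (T → A → T → S)) :=
  {g | (∀ w ∈ Q, f w = ∑ t : T, f (w ++ (t : List A)) * g.1 t) ∧
    ∀ (t : T) (a : A), ∀ w ∈ Q, f (w ++ (a :: (t : List A))) =
      ∑ s : T, f (w ++ (s : List A)) * g.2 s a t}

/-- `f` is co-guessable. -/
def CoGuessable (f : List A → S) : Prop :=
  ∃ (Q : Set (List A)) (T : Finset (List A)), Q.Finite ∧ T.Nonempty ∧
    Gam f Q T = Gam f Set.univ T ∧ (Gam f Set.univ T).Nonempty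

/-- `f` is strongly co-guessable. -/
def StronglyCoGuessable (f : List A → S) : Prop :=
  CoGuessable f ∧ ∀ T : Finset (List A), T.Nonempty → ∃ Q : Set (List A), Q.Finite ∧
    Gam f Q T = Gam f Set.univ T

end defs

/-! ### The monoid -/

/-- The monoid of all functions `ℕ → ℕ` which are the identity, or constant, or satisfy `x < m x`
for all `x` and take the value `1` at `0` only if they are the successor function. -/
@[ext] structure Mn where
  fn : ℕ → ℕ
  prop : fn = id ∨ ((∀ x, x < fn x) ∧ (fn 0 = 1 → fn = Nat.succ)) ∨ ∃ c, fn = fun _ => c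

instance : Monoid Mn where
  one := ⟨id, Or.inl rfl⟩
  mul a b := ⟨a.fn ∘ b.fn, by
    rcases a.prop with ha | ha | ⟨c, ha⟩
    · rw [ha]; simpa using b.prop
    · rcases b.prop with hb | hb | ⟨c, hb⟩
      · rw [hb]; right; left; simpa using ha
      · right; left
        refine ⟨fun x => (hb.1 x).trans (ha.1 _), fun h => ?_⟩
        have h1 := hb.1 0
        have h2 := ha.1 (b.fn 0)
        simp only [Function.comp_apply] at h
        omega
      · right; right
        exact ⟨a.fn c, by rw [hb]; rfl⟩
    · right; right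
      exact ⟨c, by rw [ha]; rfl⟩⟩
  mul_assoc a b c := rfl
  one_mul a := rfl
  mul_one a := rfl

lemma Mn.mul_fn (a b : Mn) (x : ℕ) : (a * b).fn x = a.fn (b.fn x) := rfl

/-- constant functions -/
def cst (n : ℕ) : Mn := ⟨fun _ => n, Or.inr (Or.inr ⟨n, rfl⟩)⟩

/-- the successor function -/
def scc : Mn := ⟨Nat.succ, Or.inr (Or.inl ⟨fun x => Nat.lt_succ_self x, fun _ => rfl⟩)⟩

/-- the function which agrees with the successor function exactly on `1, …, j` -/
def yy (j : ℕ) : Mn :=
  ⟨fun n => if 1 ≤ n ∧ n ≤ j then n + 1 else n + 2, by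
    right; left
    refine ⟨fun x => by split <;> omega, fun h => ?_⟩
    simp at h⟩

lemma mul_cst (m : Mn) (n : ℕ) : m * cst n = cst (m.fn n) := rfl

lemma cst_inj {a b : ℕ} (h : cst a = cst b) : a = b := congrFun (congrArg Mn.fn h) 0

/-- The semiring: sets of elements of the monoid under union and product. -/
abbrev SR : Type := SetSemiring Mn

/-- the elements `{const_n}` -/
def e (n : ℕ) : SR := Set.up ({cst n} : Set Mn)

/-- singletons -/
def sg (m : Mn) : SR := Set.up ({m} : Set Mn)

open scoped Pointwise in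
lemma sg_mul_e (m : Mn) (n : ℕ) : sg m * e n = e (m.fn n) := by
  rw [sg, e, ← Set.up_mul, Set.singleton_mul_singleton, mul_cst]
  rfl

lemma e_inj {a b : ℕ} (h : e a = e b) : a = b := by
  have h1 : ({cst a} : Set Mn) = {cst b} := Set.up.injective h
  exact cst_inj (Set.singleton_injective h1)

open scoped Pointwise in
lemma mul_e_eq {x : SR} {a b : ℕ} (h : x * e a = e b) :
    x.down.Nonempty ∧ ∀ m ∈ x.down, m.fn a = b := by
  have h1 : x.down * ({cst a} : Set Mn) = ({cst b} : Set Mn) := by
    have := congrArg SetSemiring.down h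
    rw [SetSemiring.down_mul] at this
    exact this
  rw [Set.mul_singleton] at h1
  constructor
  · have h2 : ((fun m => m * cst a) '' x.down).Nonempty := by
      rw [h1]; exact Set.singleton_nonempty _
    exact Set.image_nonempty.mp h2
  · intro m hm
    have h2 : m * cst a ∈ ({cst b} : Set Mn) := by
      rw [← h1]; exact ⟨m, hm, rfl⟩
    exact cst_inj h2

lemma eq_sg {x : SR} {m : Mn} (h : x.down.Nonempty) (h2 : ∀ m' ∈ x.down, m' = m) : x = sg m := by
  have : x.down = ({m} : Set Mn) := Set.eq_singleton_iff_nonempty_unique_mem.mpr ⟨h, h2⟩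
  rw [← SetSemiring.up_down x, this]
  rfl

lemma sg_one : sg 1 = 1 := rfl

lemma fact_one {x : SR} (h0 : x * e 0 = e 0) (h1 : x * e 1 = e 1) : x = 1 := by
  rw [← sg_one]
  refine eq_sg (mul_e_eq h0).1 fun m hm => ?_
  have e0 := (mul_e_eq h0).2 m hm
  have e1 := (mul_e_eq h1).2 m hm
  apply Mn.ext
  rcases m.prop with h | h | ⟨c, h⟩
  · rw [h]; rfl
  · have := h.1 0; omega
  · rw [h] at e0 e1; simp at e0 e1; omega

lemma fact_succ {x : SR} (h0 : x * e 0 = e 1) (h1 : x * e 1 = e 2) : x = sg scc := by
  refine eq_sg (mul_e_eq h0).1 fun m hm => ?_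
  have e0 := (mul_e_eq h0).2 m hm
  have e1 := (mul_e_eq h1).2 m hm
  apply Mn.ext
  rcases m.prop with h | h | ⟨c, h⟩
  · rw [h] at e0; simp at e0
  · rw [h.2 e0]; rfl
  · rw [h] at e0 e1; simp at e0 e1; omega

lemma scc_e (n : ℕ) : sg scc * e n = e (n + 1) := sg_mul_e _ _

lemma yy_e (j n : ℕ) (hn : n < j) : sg (yy j) * e (n + 1) = e (n + 2) := by
  rw [sg_mul_e]
  congr 1
  show (if 1 ≤ n + 1 ∧ n + 1 ≤ j then n + 1 + 1 else n + 1 + 2) = n + 2
  rw [if_pos (by omega)]

lemma yy_bad (j : ℕ) : sg (yy j) * e (j + 1) ≠ e (j + 2) := by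
  rw [sg_mul_e]
  intro h
  have := e_inj h
  have h2 : (if 1 ≤ j + 1 ∧ j + 1 ≤ j then j + 1 + 1 else j + 1 + 2) = j + 2 := this
  rw [if_neg (by omega)] at h2
  omega

/-! ### Sums over small finite sets -/

lemma sum_nil {S : Type} [Semiring S] (g : ({[]} : Finset (List Unit)) → S) :
    ∑ q, g q = g ⟨[], Finset.mem_singleton_self _⟩ := by
  rw [Fintype.sum_eq_single ⟨[], Finset.mem_singleton_self _⟩]
  rintro ⟨q, hq⟩ hne
  exact absurd (Subtype.ext (Finset.mem_singleton.mp hq)) hne

/-- the two-element set `{ε, a}` -/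
def Q2 : Finset (List Unit) := {[], [()]}

lemma mem1 : ([] : List Unit) ∈ Q2 := by simp [Q2]
lemma mem2 : ([()] : List Unit) ∈ Q2 := by simp [Q2]

lemma cases_Q2 (q : Q2) : q = ⟨[], mem1⟩ ∨ q = ⟨[()], mem2⟩ := by
  obtain ⟨q, hq⟩ := q
  rcases Finset.mem_insert.mp hq with h | h
  · left; exact Subtype.ext h
  · right; exact Subtype.ext (Finset.mem_singleton.mp h)

lemma unit_word (w : List Unit) : w = List.replicate w.length () :=
  List.eq_replicate_of_mem fun _ _ => rfl

/-- for a finite set of words, a bound on the lengths -/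
lemma exists_bound (T : Set (List Unit)) (hT : T.Finite) : ∃ j, ∀ w ∈ T, w.length < j := by
  obtain ⟨b, hb⟩ := (hT.image List.length).bddAbove
  exact ⟨b + 1, fun w hw => Nat.lt_succ_of_le (hb ⟨w, hw, rfl⟩)⟩

/-! ### The row version -/

/-- the function `a^n ↦ {const_n}` -/
def f (w : List Unit) : SR := e w.length

lemma f_computed : Computed f := by
  refine ⟨1, fun _ => 1, fun _ => Matrix.of fun _ _ => sg scc, fun _ => e 0, fun w => ?_⟩
  rw [Fin.sum_univ_one, one_mul]
  induction w with
  | nil => simp [f]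
  | cons a w ih =>
    rw [List.map_cons, List.prod_cons, ← Matrix.mulVec_mulVec]
    rw [Matrix.mulVec, dotProduct, Fin.sum_univ_one, ← ih, Matrix.of_apply]
    exact (scc_e _).symm

lemma f_guessable : Guessable f := by
  refine ⟨{[]}, {[], [()]}, Finset.singleton_nonempty _, Set.toFinite _, ?_, ?_⟩
  · apply Set.Subset.antisymm
    · rintro ⟨l, l'⟩ ⟨h1, h2⟩
      simp only [sum_nil, List.nil_append] at h1 h2
      have a0 := h1 [] (by simp)
      have a1 := h1 [()] (by simp)
      have b0 := h2 ⟨[], Finset.mem_singleton_self _⟩ () [] (by simp)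
      have b1 := h2 ⟨[], Finset.mem_singleton_self _⟩ () [()] (by simp)
      have hl := fact_one a0.symm a1.symm
      have hl' := fact_succ b0.symm b1.symm
      refine ⟨fun w _ => ?_, ?_⟩
      · simp only [sum_nil, List.nil_append]
        rw [hl, one_mul]
      · rintro ⟨q, hq⟩ a w _
        have hq' : q = [] := Finset.mem_singleton.mp hq
        subst hq'
        simp only [sum_nil, List.nil_append]
        rw [show a = () from rfl, hl']
        exact (scc_e _).symm
    · rintro l ⟨h1, h2⟩
      exact ⟨fun w _ => h1 w trivial, fun q a w _ => h2 q a w trivial⟩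
  · refine ⟨⟨fun _ => 1, fun _ _ _ => sg scc⟩, fun w _ => ?_, ?_⟩
    · simp only [sum_nil, List.nil_append, one_mul]
    · rintro ⟨q, hq⟩ a w _
      have hq' : q = [] := Finset.mem_singleton.mp hq
      subst hq'
      simp only [sum_nil, List.nil_append]
      exact (scc_e _).symm

lemma f_not_strong : ¬ StronglyGuessable f := by
  rintro ⟨-, h⟩
  obtain ⟨T, hT, hEq⟩ := h Q2 ⟨[], mem1⟩
  obtain ⟨j, hj⟩ := exists_bound T hT
  classical
  let l : (Q2 → SR) × (Q2 → Unit → Q2 → SR) :=
    (fun q => if q = ⟨[], mem1⟩ then 1 else 0,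
     fun q _ p => if p = ⟨[()], mem2⟩ then (if q = ⟨[], mem1⟩ then 1 else sg (yy j)) else 0)
  have hmem : l ∈ Lam f Q2 T := by
    refine ⟨fun w _ => ?_, fun q a w hw => ?_⟩
    · rw [Fintype.sum_eq_single ⟨[], mem1⟩]
      · simp [l]
      · intro q hq
        simp [l, hq]
    · rw [Fintype.sum_eq_single ⟨[()], mem2⟩]
      · rcases cases_Q2 q with rfl | rfl
        · simp [l]
        · have hne : (⟨[()], mem2⟩ : Q2) ≠ ⟨[], mem1⟩ := by
            intro h; simpa using congrArg Subtype.val h
          simp only [l, if_true, if_neg hne]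
          have := yy_e j w.length (hj w hw)
          exact this.symm
      · intro p hp
        simp [l, hp]
  rw [hEq] at hmem
  have h2 := hmem.2 ⟨[()], mem2⟩ () (List.replicate j ()) trivial
  rw [Fintype.sum_eq_single ⟨[()], mem2⟩] at h2
  · have hne : (⟨[()], mem2⟩ : Q2) ≠ ⟨[], mem1⟩ := by
      intro h; simpa using congrArg Subtype.val h
    simp only [l, if_true, if_neg hne] at h2
    apply yy_bad j
    simpa [f] using h2.symm
  · intro p hp
    simp [l, hp]

/-! ### The column version -/

open MulOpposite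

/-- the function `a^n ↦ {const_n}` with values in the opposite semiring -/
def g (w : List Unit) : SRᵐᵒᵖ := op (e w.length)

lemma e_mul_op (x : SRᵐᵒᵖ) (n : ℕ) : op (e n) * x = op (x.unop * e n) := rfl

lemma g_computed : Computed g := by
  refine ⟨1, fun _ => op (e 0), fun _ => Matrix.of fun _ _ => op (sg scc), fun _ => 1,
    fun w => ?_⟩
  rw [Fin.sum_univ_one]
  have key : ∀ w : List Unit, ∀ n : ℕ, op (e (n + w.length)) = op (e n) *
      ((w.map fun _ => (Matrix.of fun _ _ => op (sg scc) :
        Matrix (Fin 1) (Fin 1) SRᵐᵒᵖ)).prod.mulVec (fun _ => 1)) 0 := by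
    intro w
    induction w with
    | nil => intro n; simp
    | cons a w ih =>
      intro n
      rw [List.map_cons, List.prod_cons, ← Matrix.mulVec_mulVec]
      have := ih (n + 1)
      rw [Matrix.mulVec, dotProduct, Fin.sum_univ_one, Matrix.of_apply]
      rw [← mul_assoc]
      have h1 : op (e n) * op (sg scc) = op (e (n + 1)) := by
        rw [e_mul_op]
        exact congrArg op (scc_e n)
      rw [h1, ← this, List.length_cons]
      congr 2
      ring
  have := key w 0
  rw [zero_add] at this
  exact this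

lemma op_eq {x : SRᵐᵒᵖ} {a b : ℕ} (h : op (e b) = op (e a) * x) : x.unop * e a = e b := by
  rw [e_mul_op] at h
  exact (op_injective h).symm

lemma eq_op {x : SR} {a b : ℕ} (h : x * e a = e b) : op (e b) = op (e a) * op x := by
  rw [e_mul_op, unop_op, h]

lemma g_co : CoGuessable g := by
  refine ⟨{[], [()]}, {[]}, Set.toFinite _, Finset.singleton_nonempty _, ?_, ?_⟩
  · apply Set.Subset.antisymm
    · rintro ⟨l, l'⟩ ⟨h1, h2⟩
      simp only [sum_nil, List.append_nil] at h1 h2
      have a0 := op_eq (h1 [] (by simp))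
      have a1 := op_eq (h1 [()] (by simp))
      have b0 := op_eq (h2 ⟨[], Finset.mem_singleton_self _⟩ () [] (by simp))
      have b1 := op_eq (h2 ⟨[], Finset.mem_singleton_self _⟩ () [()] (by simp))
      have hl := fact_one a0 a1
      have hl' := fact_succ b0 b1
      refine ⟨fun w _ => ?_, ?_⟩
      · simp only [sum_nil, List.append_nil]
        have : l ⟨[], Finset.mem_singleton_self _⟩ = 1 := by
          rw [← op_unop (l _), hl, op_one]
        rw [this, mul_one]
      · rintro ⟨q, hq⟩ a w _
        have hq' : q = [] := Finset.mem_singleton.mp hq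
        subst hq'
        simp only [sum_nil, List.append_nil]
        rw [show a = () from rfl, ← op_unop (l' _ _ _), hl']
        have := eq_op (scc_e w.length)
        simpa [g] using this
    · rintro l ⟨h1, h2⟩
      exact ⟨fun w _ => h1 w trivial, fun q a w _ => h2 q a w trivial⟩
  · refine ⟨⟨fun _ => 1, fun _ _ _ => op (sg scc)⟩, fun w _ => ?_, ?_⟩
    · simp only [sum_nil, List.append_nil, mul_one]
    · rintro ⟨q, hq⟩ a w _
      have hq' : q = [] := Finset.mem_singleton.mp hq
      subst hq'
      simp only [sum_nil, List.append_nil]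
      have := eq_op (scc_e w.length)
      simpa [g] using this

lemma g_not_strong : ¬ StronglyCoGuessable g := by
  rintro ⟨-, h⟩
  obtain ⟨T, hT, hEq⟩ := h Q2 ⟨[], mem1⟩
  obtain ⟨j, hj⟩ := exists_bound T hT
  classical
  let l : (Q2 → SRᵐᵒᵖ) × (Q2 → Unit → Q2 → SRᵐᵒᵖ) :=
    (fun q => if q = ⟨[], mem1⟩ then 1 else 0,
     fun p _ q => if p = ⟨[()], mem2⟩ then (if q = ⟨[], mem1⟩ then 1 else op (sg (yy j))) else 0)
  have hne : (⟨[()], mem2⟩ : Q2) ≠ ⟨[], mem1⟩ := by
    intro h; simpa using congrArg Subtype.val h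
  have hmem : l ∈ Gam g T Q2 := by
    refine ⟨fun w _ => ?_, fun q a w hw => ?_⟩
    · rw [Fintype.sum_eq_single ⟨[], mem1⟩]
      · simp [l]
      · intro q hq
        simp [l, hq]
    · rw [Fintype.sum_eq_single ⟨[()], mem2⟩]
      · rcases cases_Q2 q with rfl | rfl
        · simp [l]
        · simp only [l, if_true, if_neg hne]
          have := eq_op (yy_e j w.length (hj w hw))
          simpa [g] using this
      · intro p hp
        simp [l, hp]
  rw [hEq] at hmem
  have h2 := hmem.2 ⟨[()], mem2⟩ () (List.replicate j ()) trivial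
  rw [Fintype.sum_eq_single ⟨[()], mem2⟩] at h2
  · simp only [l, if_true, if_neg hne] at h2
    apply yy_bad j
    have h3 : op (e (j + 2)) = op (e (j + 1)) * op (sg (yy j)) := by
      simpa [g] using h2
    exact op_eq h3
  · intro p hp
    simp [l, hp]

/-- **Main theorem.** There are a semiring `S`, a finite alphabet and a function `f : Σ* → S`
computed by a finite weighted automaton over `S` which is guessable but not strongly guessable;
and the same holds with co-guessable and strongly co-guessable. -/
theorem result :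
    (∃ (S : Type) (_ : Semiring S) (A : Type) (_ : Finite A) (f : List A → S),
      Computed f ∧ Guessable f ∧ ¬ StronglyGuessable f) ∧
    (∃ (S : Type) (_ : Semiring S) (A : Type) (_ : Finite A) (f : List A → S),
      Computed f ∧ CoGuessable f ∧ ¬ StronglyCoGuessable f) :=
  ⟨⟨SR, inferInstance, Unit, inferInstance, f, f_computed, f_guessable, f_not_strong⟩,
    ⟨SRᵐᵒᵖ, inferInstance, Unit, inferInstance, g, g_computed, g_co, g_not_strong⟩⟩

end Pool.Agent.Results.MP_2c9be0_lc.GuessableNotStrongly
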